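import Pool.Agent.Lib.MP_afdd4d_co.K10.GD.T05
import Pool.Agent.Lib.MP_afdd4d_co.K10.GD.T06
import Pool.Agent.Lib.MP_afdd4d_co.K10.GD.T07
import Pool.Agent.Lib.MP_afdd4d_co.K10.GD.T08
import Pool.Agent.Lib.MP_afdd4d_co.K10.GD.T09
import Pool.Agent.Lib.MP_afdd4d_co.K10.GD.T10
import Pool.Agent.Lib.MP_afdd4d_co.K10.GD.T11

/-!
# The tables of a group
-/

namespace Pool.Agent.Lib.MP_afdd4d_co.K10.GD

set_option maxRecDepth 100000
set_option exponentiation.threshold 10000000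

open Pool.Agent.Lib.MP_afdd4d_co.K8

/-- The tables of the group 1: parity 0, constant 1. -/
def L1 : List (ℕ × NT) := [(1, t05), (2, t06), (3, t07), (6, t08), (7, t09), (14, t10), (15, t11)]

theorem L1_sh : allL (fun I : ℕ × NT => Nat.blt I.1 16 && shpG I.2 9) L1 = true := by
  decide +kernel

end Pool.Agent.Lib.MP_afdd4d_co.K10.GD
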