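import Pool.Agent.Lib.MP_afdd4d_co.K10.GD.T12
import Pool.Agent.Lib.MP_afdd4d_co.K10.GD.T13
import Pool.Agent.Lib.MP_afdd4d_co.K10.GD.T14
import Pool.Agent.Lib.MP_afdd4d_co.K10.GD.T15
import Pool.Agent.Lib.MP_afdd4d_co.K10.GD.T16
import Pool.Agent.Lib.MP_afdd4d_co.K10.GD.T17

/-!
# The tables of a group
-/

namespace Pool.Agent.Lib.MP_afdd4d_co.K10.GD

set_option maxRecDepth 100000
set_option exponentiation.threshold 10000000

open Pool.Agent.Lib.MP_afdd4d_co.K8

/-- The tables of the group 2: parity 0, constant 3. -/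
def L2 : List (ℕ × NT) := [(3, t12), (5, t13), (7, t14), (12, t15), (13, t16), (15, t17)]

theorem L2_sh : allL (fun I : ℕ × NT => Nat.blt I.1 16 && shpG I.2 9) L2 = true := by
  decide +kernel

end Pool.Agent.Lib.MP_afdd4d_co.K10.GD
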