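import Pool.Agent.Lib.MP_afdd4d_co.K10.GD.T18
import Pool.Agent.Lib.MP_afdd4d_co.K10.GD.T19
import Pool.Agent.Lib.MP_afdd4d_co.K10.GD.T20

/-!
# The tables of a group
-/

namespace Pool.Agent.Lib.MP_afdd4d_co.K10.GD

set_option maxRecDepth 100000
set_option exponentiation.threshold 10000000

open Pool.Agent.Lib.MP_afdd4d_co.K8

/-- The tables of the group 3: parity 0, constant 7. -/
def L3 : List (ℕ × NT) := [(7, t18), (11, t19), (15, t20)]

theorem L3_sh : allL (fun I : ℕ × NT => Nat.blt I.1 16 && shpG I.2 9) L3 = true := by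
  decide +kernel

end Pool.Agent.Lib.MP_afdd4d_co.K10.GD
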