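import Pool.Agent.Lib.MP_afdd4d_co.K10.GD.T27
import Pool.Agent.Lib.MP_afdd4d_co.K10.GD.T28
import Pool.Agent.Lib.MP_afdd4d_co.K10.GD.T29
import Pool.Agent.Lib.MP_afdd4d_co.K10.GD.T30
import Pool.Agent.Lib.MP_afdd4d_co.K10.GD.T31
import Pool.Agent.Lib.MP_afdd4d_co.K10.GD.T32
import Pool.Agent.Lib.MP_afdd4d_co.K10.GD.T33

/-!
# The tables of a group
-/

namespace Pool.Agent.Lib.MP_afdd4d_co.K10.GD

set_option maxRecDepth 100000
set_option exponentiation.threshold 10000000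

open Pool.Agent.Lib.MP_afdd4d_co.K8

/-- The tables of the group 5: parity 1, constant 1. -/
def L5 : List (ℕ × NT) := [(1, t27), (2, t28), (3, t29), (6, t30), (7, t31), (14, t32), (15, t33)]

theorem L5_sh : allL (fun I : ℕ × NT => Nat.blt I.1 16 && shpG I.2 9) L5 = true := by
  decide +kernel

end Pool.Agent.Lib.MP_afdd4d_co.K10.GD
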