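import Pool.Agent.Lib.MP_afdd4d_co.K8.GamSum

/-!
# Constants
-/

namespace Pool.Agent.Lib.MP_afdd4d_co.K10.GD

set_option maxRecDepth 100000
set_option exponentiation.threshold 10000000

open Pool.Agent.Lib.MP_afdd4d_co.K8 Pool.Agent.Lib.MP_afdd4d_co.K8.Gm

/-- The offset. -/
def OO : ℕ := 4123168604160

/-- A third of the scale. -/
def a3 : ℕ := 824633720832

end Pool.Agent.Lib.MP_afdd4d_co.K10.GD
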