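import Pool.Agent.Lib.MP_afdd4d_co.K10.DK.Dat
import Pool.Agent.Lib.MP_afdd4d_co.K10.GD.Num
import Pool.Agent.Lib.MP_afdd4d_co.K10.GD.L0
import Pool.Agent.Lib.MP_afdd4d_co.K10.GD.L1
import Pool.Agent.Lib.MP_afdd4d_co.K10.GD.L2
import Pool.Agent.Lib.MP_afdd4d_co.K10.GD.L3
import Pool.Agent.Lib.MP_afdd4d_co.K10.GD.L4
import Pool.Agent.Lib.MP_afdd4d_co.K10.GD.L5
import Pool.Agent.Lib.MP_afdd4d_co.K10.GD.L6
import Pool.Agent.Lib.MP_afdd4d_co.K10.GD.L7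
import Pool.Agent.Lib.MP_afdd4d_co.K10.GD.L8

/-!
# The tables
-/

namespace Pool.Agent.Lib.MP_afdd4d_co.K10.GD

set_option maxRecDepth 100000
set_option exponentiation.threshold 10000000

open Pool.Agent.Lib.MP_afdd4d_co.K8 Pool.Agent.Lib.MP_afdd4d_co.K8.Gm

/-- The tables of the pair terms. -/
def T : GT where
  D := DK.D
  w := 64
  OO := OO
  a3 := a3
  tb := [(0, 0, 0, t00), (0, 0, 1, t01), (0, 0, 3, t02), (0, 0, 7, t03), (0, 0, 15, t04),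
    (0, 1, 1, t05), (0, 1, 2, t06), (0, 1, 3, t07), (0, 1, 6, t08), (0, 1, 7, t09),
    (0, 1, 14, t10), (0, 1, 15, t11), (0, 3, 3, t12), (0, 3, 5, t13), (0, 3, 7, t14),
    (0, 3, 12, t15), (0, 3, 13, t16), (0, 3, 15, t17), (0, 7, 7, t18), (0, 7, 11, t19),
    (0, 7, 15, t20), (1, 0, 0, t22), (1, 0, 1, t23), (1, 0, 3, t24), (1, 0, 7, t25),
    (1, 0, 15, t26), (1, 1, 1, t27), (1, 1, 2, t28), (1, 1, 3, t29), (1, 1, 6, t30),
    (1, 1, 7, t31), (1, 1, 14, t32), (1, 1, 15, t33), (1, 3, 3, t34), (1, 3, 5, t35),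
    (1, 3, 7, t36), (1, 3, 12, t37), (1, 3, 13, t38), (1, 3, 15, t39), (1, 7, 7, t40),
    (1, 7, 11, t41), (1, 7, 15, t42), (1, 15, 15, t43)]

end Pool.Agent.Lib.MP_afdd4d_co.K10.GD
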