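import Pool.Agent.Lib.MP_afdd4d_co.K10.GD.Dat

/-!
# The terms of the coset number 2
-/

namespace Pool.Agent.Lib.MP_afdd4d_co.K10.GD

set_option maxRecDepth 100000
set_option exponentiation.threshold 10000000

open Pool.Agent.Lib.MP_afdd4d_co.K8 Pool.Agent.Lib.MP_afdd4d_co.K8.Gm

/-- The terms. -/
def g02 : GT.GR := ⟨272,
  [(584472, 0, [4, 3, 0, 0, 1, 0, 0, 0, 0],
      [(1, 5, 12), (4, 1, 0), (1, 0, 3), (1, 1, 10), (1, 2, 6), (1, 5, 7), (1, 6, 10),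
        (1, 7, 8), (1, 8, 10), (1, 9, 11), (0, 0, 0), (0, 1, 0), (0, 4, 0), (0, 10, 0)]),
    (846608, 0, [4, 2, 0, 0, 1, 0, 0, 0, 0],
      [(1, 5, 12), (4, 2, 0), (1, 0, 3), (1, 1, 6), (1, 2, 10), (1, 4, 7), (1, 7, 8),
        (1, 8, 11), (1, 9, 10), (0, 0, 0), (0, 2, 0), (0, 5, 0), (0, 11, 0)]),
    (420504, 1, [2, 3, 0, 0, 4, 0, 0, 0, 0],
      [(1, 5, 12), (4, 0, 0), (1, 1, 5), (1, 2, 9), (1, 3, 6), (1, 4, 9), (1, 6, 11),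
        (1, 7, 10), (1, 9, 10), (0, 1, 0), (0, 2, 0), (0, 7, 0), (0, 13, 0)]),
    (452816, 1, [0, 0, 0, 0, 4, 3, 2, 0, 0],
      [(1, 3, 9), (1, 4, 5), (1, 5, 11), (1, 7, 12), (1, 8, 12), (1, 9, 12), (1, 10, 12),
        (0, 4, 0), (0, 5, 0), (0, 7, 0)]),
    (481488, 2, [0, 0, 0, 0, 4, 3, 2, 0, 0],
      [(1, 3, 9), (1, 4, 9), (1, 5, 9), (1, 6, 10), (1, 7, 9), (1, 8, 11), (1, 9, 12),
        (1, 10, 11), (1, 11, 12), (0, 10, 0), (0, 11, 0), (0, 13, 0)]),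
    (873264, 0, [0, 1, 4, 0, 0, 0, 2, 0, 0],
      [(1, 3, 12), (4, 2, 0), (1, 1, 8), (1, 3, 11), (1, 4, 10), (1, 7, 11), (1, 8, 9),
        (1, 9, 10), (1, 10, 11), (0, 0, 0), (0, 3, 0), (0, 6, 0), (0, 12, 0)]),
    (682696, 1, [3, 1, 0, 0, 4, 0, 0, 0, 0],
      [(1, 5, 12), (4, 1, 0), (1, 1, 4), (1, 2, 6), (1, 3, 9), (1, 5, 11), (1, 8, 10),
        (1, 9, 10), (0, 1, 0), (0, 3, 0), (0, 8, 0), (0, 14, 0)]),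
    (714952, 1, [0, 0, 0, 0, 4, 3, 1, 0, 0],
      [(1, 2, 9), (1, 3, 9), (1, 4, 11), (1, 5, 6), (1, 8, 12), (1, 9, 12), (1, 10, 12),
        (1, 11, 12), (0, 4, 0), (0, 6, 0), (0, 8, 0)]),
    (743512, 2, [0, 0, 0, 0, 4, 1, 3, 0, 0],
      [(1, 1, 2), (1, 2, 9), (1, 3, 9), (1, 5, 10), (1, 6, 9), (1, 7, 12), (1, 8, 10),
        (1, 9, 11), (0, 10, 0), (0, 12, 0), (0, 14, 0)]),
    (944720, 1, [1, 2, 0, 0, 4, 0, 0, 0, 0],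
      [(1, 5, 12), (4, 2, 0), (1, 1, 6), (1, 2, 3), (1, 3, 10), (1, 4, 11), (1, 5, 10),
        (1, 7, 8), (0, 2, 0), (0, 3, 0), (0, 9, 0), (0, 15, 0)]),
    (977032, 1, [0, 0, 0, 0, 4, 2, 1, 0, 0],
      [(1, 1, 9), (1, 2, 9), (1, 3, 9), (1, 4, 6), (1, 5, 11), (1, 6, 12), (1, 9, 11),
        (0, 5, 0), (0, 6, 0), (0, 9, 0)]),
    (1002064, 2, [0, 0, 0, 0, 4, 0, 0, 1, 2],
      [(1, 1, 10), (1, 2, 4), (1, 4, 9), (1, 5, 9), (1, 6, 10), (1, 7, 12), (1, 8, 11),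
        (0, 11, 0), (0, 12, 0), (0, 15, 0)]),
    (1237656, 5, [0, 0, 0, 0, 1, 2, 3, 0, 0],
      [(1, 0, 9), (1, 1, 2), (1, 3, 9), (1, 4, 8), (1, 5, 7), (1, 10, 12), (0, 7, 0),
        (0, 8, 0), (0, 9, 0)]),
    (1266384, 22, [0, 0, 0, 0, 1, 3, 2, 0, 0],
      [(1, 0, 9), (1, 3, 9), (1, 4, 11), (1, 5, 12), (1, 6, 10), (1, 7, 12), (1, 8, 9),
        (1, 9, 11), (1, 10, 12), (0, 13, 0), (0, 14, 0), (0, 15, 0)]),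
    (1525384, 22, [0, 0, 0, 0, 0, 0, 0, 0, 0],
      [(1, 0, 12), (1, 1, 13), (1, 2, 14), (1, 3, 15), (1, 4, 12), (1, 5, 13), (1, 6, 14),
        (1, 7, 15), (1, 8, 12), (1, 9, 13), (1, 10, 14), (1, 11, 15)])],
  [(481488, 2, [0, 0, 0, 0, 4, 3, 2, 0, 0],
      [(1, 3, 9), (1, 4, 9), (1, 5, 9), (1, 6, 10), (1, 7, 9), (1, 8, 11), (1, 9, 12),
        (1, 10, 11), (1, 11, 12), (0, 10, 0), (0, 11, 0), (0, 13, 0)]),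
    (743512, 2, [0, 0, 0, 0, 4, 1, 3, 0, 0],
      [(1, 1, 2), (1, 2, 9), (1, 3, 9), (1, 5, 10), (1, 6, 9), (1, 7, 12), (1, 8, 10),
        (1, 9, 11), (0, 10, 0), (0, 12, 0), (0, 14, 0)]),
    (1002064, 2, [0, 0, 0, 0, 4, 0, 0, 1, 2],
      [(1, 1, 10), (1, 2, 4), (1, 4, 9), (1, 5, 9), (1, 6, 10), (1, 7, 12), (1, 8, 11),
        (0, 11, 0), (0, 12, 0), (0, 15, 0)]),
    (1266384, 22, [0, 0, 0, 0, 1, 3, 2, 0, 0],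
      [(1, 0, 9), (1, 3, 9), (1, 4, 11), (1, 5, 12), (1, 6, 10), (1, 7, 12), (1, 8, 9),
        (1, 9, 11), (1, 10, 12), (0, 13, 0), (0, 14, 0), (0, 15, 0)]),
    (1525384, 22, [0, 0, 0, 0, 0, 0, 0, 0, 0],
      [(1, 0, 12), (1, 1, 13), (1, 2, 14), (1, 3, 15), (1, 4, 12), (1, 5, 13), (1, 6, 14),
        (1, 7, 15), (1, 8, 12), (1, 9, 13), (1, 10, 14), (1, 11, 15)])],
  [(1753752, 5, [0, 0, 0, 0, 0, 0, 0, 0, 0],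
      [(1, 0, 12), (1, 1, 15), (1, 2, 14), (1, 3, 13), (1, 4, 8), (1, 5, 7), (1, 7, 11),
        (1, 8, 10), (1, 10, 14), (1, 11, 15), (1, 13, 15)])]⟩

theorem okg02 : GT.okG T g02 = true := by decide +kernel

end Pool.Agent.Lib.MP_afdd4d_co.K10.GD
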