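import Pool.Agent.Lib.MP_afdd4d_co.K10.GD.Dat

/-!
# The terms of the coset number 38
-/

namespace Pool.Agent.Lib.MP_afdd4d_co.K10.GD

set_option maxRecDepth 100000
set_option exponentiation.threshold 10000000

open Pool.Agent.Lib.MP_afdd4d_co.K8 Pool.Agent.Lib.MP_afdd4d_co.K8.Gm

/-- The terms. -/
def g38 : GT.GR := ⟨681584912,
  [(354648, 3, [4, 0, 3, 0, 0, 2, 0, 0, 0],
      [(1, 4, 12), (4, 0, 0), (1, 0, 9), (1, 1, 5), (1, 2, 5), (1, 3, 7), (1, 4, 10),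
        (1, 5, 9), (1, 7, 9), (1, 9, 11), (0, 0, 0), (0, 1, 0), (0, 4, 0), (0, 10, 0)]),
    (380240, 3, [4, 0, 0, 2, 0, 0, 0, 3, 0],
      [(1, 2, 12), (4, 0, 0), (1, 0, 7), (1, 1, 3), (1, 2, 5), (1, 3, 8), (1, 4, 7),
        (1, 8, 11), (1, 10, 11), (0, 0, 0), (0, 2, 0), (0, 5, 0), (0, 11, 0)]),
    (408744, 3, [0, 3, 0, 2, 0, 0, 0, 0, 4],
      [(1, 1, 12), (4, 0, 0), (1, 0, 4), (1, 2, 10), (1, 3, 9), (1, 5, 9), (1, 6, 11),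
        (1, 8, 11), (1, 9, 11), (0, 1, 0), (0, 2, 0), (0, 7, 0), (0, 13, 0)]),
    (441504, 3, [0, 0, 0, 0, 3, 0, 0, 2, 4],
      [(1, 0, 4), (1, 1, 4), (1, 2, 3), (1, 3, 10), (1, 5, 9), (1, 6, 8), (1, 7, 11),
        (1, 9, 11), (0, 4, 0), (0, 5, 0), (0, 7, 0)]),
    (481040, 4, [0, 0, 0, 0, 3, 4, 2, 0, 0],
      [(1, 0, 1), (1, 3, 9), (1, 4, 9), (1, 6, 11), (1, 7, 9), (1, 8, 10), (1, 9, 12),
        (0, 10, 0), (0, 11, 0), (0, 13, 0)]),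
    (649544, 18, [4, 0, 1, 0, 0, 3, 0, 0, 0],
      [(1, 4, 12), (4, 1, 0), (1, 0, 10), (1, 2, 7), (1, 3, 4), (1, 4, 10), (1, 5, 6),
        (1, 7, 11), (1, 8, 11), (1, 9, 11), (0, 0, 0), (0, 3, 0), (0, 6, 0), (0, 12, 0)]),
    (682696, 34, [3, 1, 0, 0, 4, 0, 0, 0, 0],
      [(1, 5, 12), (4, 1, 0), (1, 1, 4), (1, 2, 6), (1, 3, 9), (1, 5, 11), (1, 8, 10),
        (1, 9, 10), (0, 1, 0), (0, 3, 0), (0, 8, 0), (0, 14, 0)]),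
    (714952, 34, [0, 0, 0, 0, 4, 3, 1, 0, 0],
      [(1, 2, 9), (1, 3, 9), (1, 4, 11), (1, 5, 6), (1, 8, 12), (1, 9, 12), (1, 10, 12),
        (1, 11, 12), (0, 4, 0), (0, 6, 0), (0, 8, 0)]),
    (740040, 35, [0, 0, 0, 0, 4, 0, 0, 3, 1],
      [(1, 1, 3), (1, 2, 10), (1, 3, 4), (1, 5, 9), (1, 6, 10), (1, 7, 11), (1, 8, 9),
        (1, 9, 12), (1, 10, 11), (0, 10, 0), (0, 12, 0), (0, 14, 0)]),
    (1172808, 34, [2, 0, 1, 0, 0, 3, 0, 0, 0],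
      [(1, 4, 12), (4, 3, 0), (1, 0, 7), (1, 2, 10), (1, 4, 11), (1, 5, 6), (1, 6, 8),
        (1, 8, 10), (1, 9, 10), (1, 10, 11), (0, 2, 0), (0, 3, 0), (0, 9, 0), (0, 15, 0)]),
    (977032, 34, [0, 0, 0, 0, 4, 2, 1, 0, 0],
      [(1, 1, 9), (1, 2, 9), (1, 3, 9), (1, 4, 6), (1, 5, 11), (1, 6, 12), (1, 9, 11),
        (0, 5, 0), (0, 6, 0), (0, 9, 0)]),
    (1005704, 35, [0, 0, 0, 0, 4, 2, 1, 0, 0],
      [(1, 1, 9), (1, 2, 9), (1, 3, 9), (1, 4, 10), (1, 5, 9), (1, 6, 10), (1, 7, 11),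
        (1, 8, 12), (0, 11, 0), (0, 12, 0), (0, 15, 0)]),
    (1238664, 18, [0, 0, 0, 0, 3, 2, 1, 0, 0],
      [(1, 0, 9), (1, 1, 9), (1, 2, 9), (1, 3, 9), (1, 4, 6), (1, 5, 7), (1, 6, 8), (1, 7, 9),
        (0, 7, 0), (0, 8, 0), (0, 9, 0)]),
    (1258824, 35, [0, 0, 0, 0, 0, 3, 0, 2, 0],
      [(1, 6, 13), (4, 0, 0), (1, 0, 12), (1, 2, 3), (1, 3, 5), (1, 4, 10), (1, 5, 11),
        (1, 7, 12), (1, 8, 11), (1, 9, 10), (1, 10, 12), (0, 13, 0), (0, 14, 0), (0, 15, 0)]),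
    (1517320, 35, [0, 0, 0, 0, 0, 0, 0, 0, 0],
      [(1, 0, 14), (1, 1, 13), (1, 2, 12), (1, 3, 15), (1, 4, 15), (1, 5, 13), (1, 6, 13),
        (1, 7, 14), (1, 8, 15), (1, 9, 12), (1, 10, 12), (1, 11, 14), (1, 12, 14)])],
  [(481040, 4, [0, 0, 0, 0, 3, 4, 2, 0, 0],
      [(1, 0, 1), (1, 3, 9), (1, 4, 9), (1, 6, 11), (1, 7, 9), (1, 8, 10), (1, 9, 12),
        (0, 10, 0), (0, 11, 0), (0, 13, 0)]),
    (740040, 35, [0, 0, 0, 0, 4, 0, 0, 3, 1],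
      [(1, 1, 3), (1, 2, 10), (1, 3, 4), (1, 5, 9), (1, 6, 10), (1, 7, 11), (1, 8, 9),
        (1, 9, 12), (1, 10, 11), (0, 10, 0), (0, 12, 0), (0, 14, 0)]),
    (1005704, 35, [0, 0, 0, 0, 4, 2, 1, 0, 0],
      [(1, 1, 9), (1, 2, 9), (1, 3, 9), (1, 4, 10), (1, 5, 9), (1, 6, 10), (1, 7, 11),
        (1, 8, 12), (0, 11, 0), (0, 12, 0), (0, 15, 0)]),
    (1258824, 35, [0, 0, 0, 0, 0, 3, 0, 2, 0],
      [(1, 6, 13), (4, 0, 0), (1, 0, 12), (1, 2, 3), (1, 3, 5), (1, 4, 10), (1, 5, 11),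
        (1, 7, 12), (1, 8, 11), (1, 9, 10), (1, 10, 12), (0, 13, 0), (0, 14, 0), (0, 15, 0)]),
    (1517320, 35, [0, 0, 0, 0, 0, 0, 0, 0, 0],
      [(1, 0, 14), (1, 1, 13), (1, 2, 12), (1, 3, 15), (1, 4, 15), (1, 5, 13), (1, 6, 13),
        (1, 7, 14), (1, 8, 15), (1, 9, 12), (1, 10, 12), (1, 11, 14), (1, 12, 14)])],
  [(1751176, 18, [0, 0, 0, 0, 0, 0, 0, 0, 0],
      [(1, 0, 13), (1, 1, 12), (1, 2, 14), (1, 3, 15), (1, 4, 6), (1, 5, 9), (1, 6, 10),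
        (1, 9, 11), (1, 10, 13), (1, 11, 15), (1, 12, 13)])]⟩

theorem okg38 : GT.okG T g38 = true := by decide +kernel

end Pool.Agent.Lib.MP_afdd4d_co.K10.GD
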