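import Pool.Agent.Lib.MP_afdd4d_co.K10.DK.Dat
import Pool.Agent.Lib.MP_afdd4d_co.K10.GD.L0
import Pool.Agent.Lib.MP_afdd4d_co.K10.GD.Num

/-!
# Leaves
-/

namespace Pool.Agent.Lib.MP_afdd4d_co.K10.GD

set_option maxRecDepth 100000
set_option exponentiation.threshold 10000000

open Pool.Agent.Lib.MP_afdd4d_co.K8 Pool.Agent.Lib.MP_afdd4d_co.K8.Gm

theorem v0_1 : allN (fun z => DK.D.tlG 0 (ooG OO a3) 64 0 0 L0 (Nat.add 64 z)) 64 = true := by
  decide +kernel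

end Pool.Agent.Lib.MP_afdd4d_co.K10.GD
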