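import Pool.Agent.Lib.MP_afdd4d_co.K8.GamOk
import Pool.Agent.Lib.MP_afdd4d_co.K10.DK.Fin
import Pool.Agent.Lib.MP_afdd4d_co.K10.GD.Dat
import Pool.Agent.Lib.MP_afdd4d_co.K10.GD.V0_0
import Pool.Agent.Lib.MP_afdd4d_co.K10.GD.V0_1
import Pool.Agent.Lib.MP_afdd4d_co.K10.GD.V0_2
import Pool.Agent.Lib.MP_afdd4d_co.K10.GD.V0_3
import Pool.Agent.Lib.MP_afdd4d_co.K10.GD.V0_4
import Pool.Agent.Lib.MP_afdd4d_co.K10.GD.V0_5
import Pool.Agent.Lib.MP_afdd4d_co.K10.GD.V0_6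
import Pool.Agent.Lib.MP_afdd4d_co.K10.GD.V0_7
import Pool.Agent.Lib.MP_afdd4d_co.K10.GD.V1_0
import Pool.Agent.Lib.MP_afdd4d_co.K10.GD.V1_1
import Pool.Agent.Lib.MP_afdd4d_co.K10.GD.V1_2
import Pool.Agent.Lib.MP_afdd4d_co.K10.GD.V1_3
import Pool.Agent.Lib.MP_afdd4d_co.K10.GD.V1_4
import Pool.Agent.Lib.MP_afdd4d_co.K10.GD.V1_5
import Pool.Agent.Lib.MP_afdd4d_co.K10.GD.V1_6
import Pool.Agent.Lib.MP_afdd4d_co.K10.GD.V1_7
import Pool.Agent.Lib.MP_afdd4d_co.K10.GD.V2_0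
import Pool.Agent.Lib.MP_afdd4d_co.K10.GD.V2_1
import Pool.Agent.Lib.MP_afdd4d_co.K10.GD.V2_2
import Pool.Agent.Lib.MP_afdd4d_co.K10.GD.V2_3
import Pool.Agent.Lib.MP_afdd4d_co.K10.GD.V2_4
import Pool.Agent.Lib.MP_afdd4d_co.K10.GD.V2_5
import Pool.Agent.Lib.MP_afdd4d_co.K10.GD.V2_6
import Pool.Agent.Lib.MP_afdd4d_co.K10.GD.V2_7
import Pool.Agent.Lib.MP_afdd4d_co.K10.GD.V3_0
import Pool.Agent.Lib.MP_afdd4d_co.K10.GD.V3_1
import Pool.Agent.Lib.MP_afdd4d_co.K10.GD.V3_2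
import Pool.Agent.Lib.MP_afdd4d_co.K10.GD.V3_3
import Pool.Agent.Lib.MP_afdd4d_co.K10.GD.V3_4
import Pool.Agent.Lib.MP_afdd4d_co.K10.GD.V3_5
import Pool.Agent.Lib.MP_afdd4d_co.K10.GD.V3_6
import Pool.Agent.Lib.MP_afdd4d_co.K10.GD.V3_7
import Pool.Agent.Lib.MP_afdd4d_co.K10.GD.V4_0
import Pool.Agent.Lib.MP_afdd4d_co.K10.GD.V4_1
import Pool.Agent.Lib.MP_afdd4d_co.K10.GD.V4_2
import Pool.Agent.Lib.MP_afdd4d_co.K10.GD.V4_3
import Pool.Agent.Lib.MP_afdd4d_co.K10.GD.V4_4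
import Pool.Agent.Lib.MP_afdd4d_co.K10.GD.V4_5
import Pool.Agent.Lib.MP_afdd4d_co.K10.GD.V4_6
import Pool.Agent.Lib.MP_afdd4d_co.K10.GD.V4_7
import Pool.Agent.Lib.MP_afdd4d_co.K10.GD.V5_0
import Pool.Agent.Lib.MP_afdd4d_co.K10.GD.V5_1
import Pool.Agent.Lib.MP_afdd4d_co.K10.GD.V5_2
import Pool.Agent.Lib.MP_afdd4d_co.K10.GD.V5_3
import Pool.Agent.Lib.MP_afdd4d_co.K10.GD.V5_4
import Pool.Agent.Lib.MP_afdd4d_co.K10.GD.V5_5
import Pool.Agent.Lib.MP_afdd4d_co.K10.GD.V5_6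
import Pool.Agent.Lib.MP_afdd4d_co.K10.GD.V5_7
import Pool.Agent.Lib.MP_afdd4d_co.K10.GD.V6_0
import Pool.Agent.Lib.MP_afdd4d_co.K10.GD.V6_1
import Pool.Agent.Lib.MP_afdd4d_co.K10.GD.V6_2
import Pool.Agent.Lib.MP_afdd4d_co.K10.GD.V6_3
import Pool.Agent.Lib.MP_afdd4d_co.K10.GD.V6_4
import Pool.Agent.Lib.MP_afdd4d_co.K10.GD.V6_5
import Pool.Agent.Lib.MP_afdd4d_co.K10.GD.V6_6
import Pool.Agent.Lib.MP_afdd4d_co.K10.GD.V6_7
import Pool.Agent.Lib.MP_afdd4d_co.K10.GD.V7_0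
import Pool.Agent.Lib.MP_afdd4d_co.K10.GD.V7_1
import Pool.Agent.Lib.MP_afdd4d_co.K10.GD.V7_2
import Pool.Agent.Lib.MP_afdd4d_co.K10.GD.V7_3
import Pool.Agent.Lib.MP_afdd4d_co.K10.GD.V7_4
import Pool.Agent.Lib.MP_afdd4d_co.K10.GD.V7_5
import Pool.Agent.Lib.MP_afdd4d_co.K10.GD.V7_6
import Pool.Agent.Lib.MP_afdd4d_co.K10.GD.V7_7
import Pool.Agent.Lib.MP_afdd4d_co.K10.GD.V8_0
import Pool.Agent.Lib.MP_afdd4d_co.K10.GD.V8_1
import Pool.Agent.Lib.MP_afdd4d_co.K10.GD.V8_2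
import Pool.Agent.Lib.MP_afdd4d_co.K10.GD.V8_3
import Pool.Agent.Lib.MP_afdd4d_co.K10.GD.V8_4
import Pool.Agent.Lib.MP_afdd4d_co.K10.GD.V8_5
import Pool.Agent.Lib.MP_afdd4d_co.K10.GD.V8_6
import Pool.Agent.Lib.MP_afdd4d_co.K10.GD.V8_7

/-!
# The conditions on the tables
-/

namespace Pool.Agent.Lib.MP_afdd4d_co.K10.GD

set_option maxRecDepth 100000
set_option exponentiation.threshold 10000000

open Pool.Agent.Lib.MP_afdd4d_co.K8 Pool.Agent.Lib.MP_afdd4d_co.K8.Gm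

theorem lv0 : ∀ X < 512, DK.D.tlG 0 (ooG OO a3) 64 0 0 L0 X = true :=
  GT.leaves_of 64 8 (by norm_num) fun j hj => by
    interval_cases j
    · exact v0_0
    · exact v0_1
    · exact v0_2
    · exact v0_3
    · exact v0_4
    · exact v0_5
    · exact v0_6
    · exact v0_7

theorem lv1 : ∀ X < 512, DK.D.tlG 0 (ooG OO a3) 64 0 1 L1 X = true :=
  GT.leaves_of 64 8 (by norm_num) fun j hj => by
    interval_cases j
    · exact v1_0
    · exact v1_1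
    · exact v1_2
    · exact v1_3
    · exact v1_4
    · exact v1_5
    · exact v1_6
    · exact v1_7

theorem lv2 : ∀ X < 512, DK.D.tlG 0 (ooG OO a3) 64 0 3 L2 X = true :=
  GT.leaves_of 64 8 (by norm_num) fun j hj => by
    interval_cases j
    · exact v2_0
    · exact v2_1
    · exact v2_2
    · exact v2_3
    · exact v2_4
    · exact v2_5
    · exact v2_6
    · exact v2_7

theorem lv3 : ∀ X < 512, DK.D.tlG 0 (ooG OO a3) 64 0 7 L3 X = true :=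
  GT.leaves_of 64 8 (by norm_num) fun j hj => by
    interval_cases j
    · exact v3_0
    · exact v3_1
    · exact v3_2
    · exact v3_3
    · exact v3_4
    · exact v3_5
    · exact v3_6
    · exact v3_7

theorem lv4 : ∀ X < 512, DK.D.tlG 0 (ooG OO a3) 64 1 0 L4 X = true :=
  GT.leaves_of 64 8 (by norm_num) fun j hj => by
    interval_cases j
    · exact v4_0
    · exact v4_1
    · exact v4_2
    · exact v4_3
    · exact v4_4
    · exact v4_5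
    · exact v4_6
    · exact v4_7

theorem lv5 : ∀ X < 512, DK.D.tlG 0 (ooG OO a3) 64 1 1 L5 X = true :=
  GT.leaves_of 64 8 (by norm_num) fun j hj => by
    interval_cases j
    · exact v5_0
    · exact v5_1
    · exact v5_2
    · exact v5_3
    · exact v5_4
    · exact v5_5
    · exact v5_6
    · exact v5_7

theorem lv6 : ∀ X < 512, DK.D.tlG 0 (ooG OO a3) 64 1 3 L6 X = true :=
  GT.leaves_of 64 8 (by norm_num) fun j hj => by
    interval_cases j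
    · exact v6_0
    · exact v6_1
    · exact v6_2
    · exact v6_3
    · exact v6_4
    · exact v6_5
    · exact v6_6
    · exact v6_7

theorem lv7 : ∀ X < 512, DK.D.tlG 0 (ooG OO a3) 64 1 7 L7 X = true :=
  GT.leaves_of 64 8 (by norm_num) fun j hj => by
    interval_cases j
    · exact v7_0
    · exact v7_1
    · exact v7_2
    · exact v7_3
    · exact v7_4
    · exact v7_5
    · exact v7_6
    · exact v7_7

theorem lv8 : ∀ X < 512, DK.D.tlG 0 (ooG OO a3) 64 1 15 L8 X = true :=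
  GT.leaves_of 64 8 (by norm_num) fun j hj => by
    interval_cases j
    · exact v8_0
    · exact v8_1
    · exact v8_2
    · exact v8_3
    · exact v8_4
    · exact v8_5
    · exact v8_6
    · exact v8_7

/-- The groups. -/
def grL : List (ℕ × ℕ × List (ℕ × NT)) :=
  [(0, 0, L0), (0, 1, L1), (0, 3, L2), (0, 7, L3), (1, 0, L4), (1, 1, L5), (1, 3, L6),
  (1, 7, L7), (1, 15, L8)]

theorem ok : GT.OK T := by
  refine GT.ok_of T (by decide) rfl DK.rowsOK DK.prOK DK.invK DK.symOK (by decide +kernel) (by decide +kernel) grL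
    (fun g hg => ?_) rfl
  unfold grL at hg
  simp only [List.mem_cons, List.not_mem_nil, or_false] at hg
  rcases hg with rfl | rfl | rfl | rfl | rfl | rfl | rfl | rfl | rfl
  · exact ⟨by decide, lv0, L0_sh⟩
  · exact ⟨by decide, lv1, L1_sh⟩
  · exact ⟨by decide, lv2, L2_sh⟩
  · exact ⟨by decide, lv3, L3_sh⟩
  · exact ⟨by decide, lv4, L4_sh⟩
  · exact ⟨by decide, lv5, L5_sh⟩
  · exact ⟨by decide, lv6, L6_sh⟩
  · exact ⟨by decide, lv7, L7_sh⟩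
  · exact ⟨by decide, lv8, L8_sh⟩

end Pool.Agent.Lib.MP_afdd4d_co.K10.GD
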